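import Pool.Agent.D0H37.CB.Asym

set_option autoImplicit false

/-!
# The number of the members of a club up to `x`

Hornfeck and Wirsing (1957) proved that there are `x ^ o(1)` perfect numbers up to `x`, and Wirsing
(1959) that for every rational number there are at most `x ^ (W / log log x)` integers `n ≤ x` of this
abundancy, with an absolute constant `W` which is not specified. Here: every `W > log 2 = 0.693...` is
admissible, uniformly for all clubs; for the odd members of a club every `W > log 2 / 2`; and for the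
members with exponents in a set `E` of positive integers, up to few exceptions, every
`W > log (1 / ρ)`, where `∑ e ∈ E, ρ ^ e ≤ 1` (for example `W > log ((1 + √5) / 2) = 0.481...` for the
powerful members and their products with few primes).

Idea of the proof. Let `L = log x / log log x` and `Y = (log x) ^ κ` with `κ < 1` close to one. Split
`n = A B`, where `A` is composed of primes `≤ Y` and `B` of primes `> Y`.

(1) There are only `exp (o L)` possibilities for `A`, because `Y` is so small.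

(2) Decoding: the abundancy of `B` is known if `A` is known. If its denominator in lowest terms is not
one, then it is divisible by a prime that divides `B`, and `B` loses a power of this prime, whose
exponent has to be specified. If the abundancy of `B` is an integer `c ≥ 2`, then `B` has a prime
factor `≤ 2 (L / κ + 1)`, which is specified together with its exponent; the next time that this
happens the integer is smaller than `c`. As `B` has at most `L / κ` prime factors, all of them larger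
than `Y`, we have `c ≤ 1 + L / (κ Y)`, so this happens only `o (L / log L)` times and costs a factor
`exp (o L)`.

(3) The sum of the exponents of `B` is at most `L / κ`, so there are at most
`exp ((log (1 / ρ) + ε) L)` sequences of exponents.
-/

namespace Pool.Agent.Results.MP_c05f82_nt.CountingMembers

open Finset
open scoped Classical

theorem half_sum (s : ℕ) : ∑ j ∈ Icc 1 s, (1 / 2 : ℝ) ^ j ≤ 1 := by
  have h : ∑ j ∈ Icc 1 s, (1 / 2 : ℝ) ^ j = 1 - (1 / 2) ^ s := by
    induction s with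
    | zero => simp
    | succ s ih =>
      rw [Finset.sum_Icc_succ_top (by omega), ih, pow_succ]
      ring
  rw [h]
  have : (0 : ℝ) < (1 / 2) ^ s := by positivity
  linarith

theorem large (K : ℝ) : ∀ᶠ x : ℕ in Filter.atTop,
    K ≤ Real.log x / Real.log (Real.log x) ∧ 0 ≤ Real.log x / Real.log (Real.log x) := by
  have h1 : ∀ᶠ u : ℝ in Filter.atTop, Real.log u ≤ 1 / (|K| + 1) * u := by
    have := Real.isLittleO_log_id_atTop.def (show 0 < 1 / (|K| + 1) by positivity)
    filter_upwards [this, Filter.eventually_ge_atTop 0] with t ht ht0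
    rw [Real.norm_eq_abs, Real.norm_eq_abs, id, abs_of_nonneg ht0] at ht
    exact (le_abs_self _).trans ht
  have h2 : ∀ᶠ u : ℝ in Filter.atTop, 1 ≤ Real.log u :=
    Real.tendsto_log_atTop.eventually_ge_atTop 1
  have h3 := (h1.and h2).and (Filter.eventually_ge_atTop (0 : ℝ))
  filter_upwards [(Real.tendsto_log_atTop.comp tendsto_natCast_atTop_atTop).eventually h3]
    with x hx
  obtain ⟨⟨h4, h5⟩, h6⟩ := hx
  simp only [Function.comp_apply] at h4 h5 h6
  have h7 : 0 < Real.log (Real.log (x : ℝ)) := by linarith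
  refine ⟨?_, div_nonneg h6 h7.le⟩
  rw [le_div_iff₀ h7]
  have h8 : (|K| + 1) * Real.log (Real.log (x : ℝ)) ≤ Real.log x := by
    calc (|K| + 1) * Real.log (Real.log (x : ℝ)) ≤ (|K| + 1) * (1 / (|K| + 1) * Real.log x) :=
          mul_le_mul_of_nonneg_left h4 (by positivity)
      _ = Real.log x := by field_simp
  have h9 : K ≤ |K| + 1 := by
    have := le_abs_self K
    linarith
  exact (mul_le_mul_of_nonneg_right h9 h7.le).trans h8

theorem odd_exponents {n m : ℕ} {E : Set ℕ} (hE : ∀ e, e ∈ E ↔ Even e) (hn : Odd n) (hm : 0 < m)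
    (h : (∑ d ∈ n.divisors, d) * m = (∑ d ∈ m.divisors, d) * n) :
    (n.primeFactors.filter fun p => n.factorization p ∉ E).card ≤
      ∑ d ∈ m.divisors, d := by
  have hn0 : n ≠ 0 := by rintro rfl; exact absurd hn (by decide)
  obtain ⟨F, hF⟩ : ∃ F, F = n.primeFactors.filter
    fun p => n.factorization p ∉ E := ⟨_, rfl⟩
  rw [← hF]
  have h1 : 2 ^ F.card ∣ ∑ d ∈ n.divisors, d := by
    rw [Nat.sum_divisors hn0]
    refine dvd_trans ?_ (Finset.prod_dvd_prod_of_subset F n.primeFactors _ (by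
      rw [hF]; exact filter_subset _ _))
    rw [← Finset.prod_const]
    refine Finset.prod_dvd_prod_of_dvd _ _ fun p hp => ?_
    rw [hF, mem_filter] at hp
    obtain ⟨hp1, hp2⟩ := hp
    have hpp := Nat.prime_of_mem_primeFactors hp1
    have h2 := Pool.Agent.Results.MP_f02ea4_nt.IthLargestPrime.even_sg hpp
      (Nat.odd_iff.1 (hn.of_dvd_nat (Nat.dvd_of_mem_primeFactors hp1)))
      (Nat.not_even_iff_odd.1 fun h5 => hp2 ((hE _).2 h5))
    rwa [Pool.Agent.H325R2.Opn.sg_pp hpp] at h2
  have h2 : 2 ^ F.card ∣ (∑ d ∈ m.divisors, d) * n := by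
    rw [← h]
    exact Dvd.dvd.mul_right h1 m
  have h3 : (2 ^ F.card).Coprime n := Nat.Coprime.pow_left _ (Nat.coprime_two_left.2 hn)
  have h4 := Nat.le_of_dvd (Finset.sum_pos (fun d hd => Nat.pos_of_mem_divisors hd)
    (Nat.nonempty_divisors.2 hm.ne')) (h3.dvd_of_dvd_mul_right h2)
  exact (Nat.lt_two_pow_self.le).trans h4

/-- (1) Let `E` be a set of positive integers and `0 < ρ ≤ 1` with `∑ e ∈ E, ρ ^ e ≤ 1`. For every
`ε > 0` there are `δ > 0` and `x₀` such that for all `m ≥ 1` and `x ≥ x₀`, with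
`L = log x / log log x`, the club of `m` has at most `exp ((log (1 / ρ) + ε) L)` members `n ≤ x` in
whose factorization all but at most `δ L` primes have an exponent in `E`.

(2) For every `ε > 0` there is `x₀` such that every club has at most `exp ((log 2 + ε) L)` members
`n ≤ x` for all `x ≥ x₀`.

(3) For every `m ≥ 1` and `ε > 0` the club of `m` has at most `exp ((log 2 / 2 + ε) L)` odd members
`n ≤ x` for all large `x`. -/
theorem result :
    (∀ (E : Set ℕ) (ρ : ℝ), 0 < ρ → ρ ≤ 1 →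
      (∀ s : ℕ, ∑ e ∈ (Icc 1 s).filter (fun e => e ∈ E), ρ ^ e ≤ 1) → ∀ ε : ℝ, 0 < ε →
      ∃ (δ : ℝ) (x₀ : ℕ), 0 < δ ∧ ∀ m : ℕ, 0 < m → ∀ x : ℕ, x₀ ≤ x →
        ((((Icc 1 x).filter fun n =>
          (∑ d ∈ n.divisors, d) * m = (∑ d ∈ m.divisors, d) * n ∧
          (((n.primeFactors.filter fun p => n.factorization p ∉ E).card : ℕ) : ℝ) ≤
            δ * (Real.log x / Real.log (Real.log x))).card : ℕ) : ℝ) ≤
        Real.exp ((Real.log (1 / ρ) + ε) * (Real.log x / Real.log (Real.log x)))) ∧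
    (∀ ε : ℝ, 0 < ε → ∃ x₀ : ℕ, ∀ m : ℕ, 0 < m → ∀ x : ℕ, x₀ ≤ x →
        ((((Icc 1 x).filter fun n =>
          (∑ d ∈ n.divisors, d) * m = (∑ d ∈ m.divisors, d) * n).card : ℕ) : ℝ) ≤
        Real.exp ((Real.log 2 + ε) * (Real.log x / Real.log (Real.log x)))) ∧
    (∀ ε : ℝ, 0 < ε → ∀ m : ℕ, 0 < m → ∃ x₁ : ℕ, ∀ x : ℕ, x₁ ≤ x →
        ((((Icc 1 x).filter fun n => Odd n ∧
          (∑ d ∈ n.divisors, d) * m = (∑ d ∈ m.divisors, d) * n).card : ℕ) : ℝ) ≤
        Real.exp ((Real.log 2 / 2 + ε) * (Real.log x / Real.log (Real.log x)))) := by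
  have key : ∀ (E : Set ℕ) (ρ : ℝ), 0 < ρ → ρ ≤ 1 →
      (∀ s : ℕ, ∑ e ∈ (Icc 1 s).filter (fun e => e ∈ E), ρ ^ e ≤ 1) → ∀ ε : ℝ, 0 < ε →
      ∃ (δ : ℝ) (x₀ : ℕ), 0 < δ ∧ ∀ m : ℕ, 0 < m → ∀ x : ℕ, x₀ ≤ x →
        ((((Icc 1 x).filter fun n =>
          (∑ d ∈ n.divisors, d) * m = (∑ d ∈ m.divisors, d) * n ∧
          (((n.primeFactors.filter fun p => n.factorization p ∉ E).card : ℕ) : ℝ) ≤
            δ * (Real.log x / Real.log (Real.log x))).card : ℕ) : ℝ) ≤
        Real.exp ((Real.log (1 / ρ) + ε) * (Real.log x / Real.log (Real.log x))) := by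
    intro E ρ hρ0 hρ1 hsum ε hε
    obtain ⟨δ, x₀, hδ, h⟩ := Pool.Agent.D0H37.CB.main E ρ hρ0 hρ1 hsum ε hε
    refine ⟨δ, x₀, hδ, fun m hm x hx => ?_⟩
    have h1 := h (∑ d ∈ m.divisors, d) m hm x hx
    refine le_trans ?_ h1
    refine Nat.cast_le.2 (card_le_card fun n hn => ?_)
    rw [mem_filter] at hn ⊢
    exact ⟨hn.1, by rw [mul_comm]; exact hn.2.1, hn.2.2⟩
  refine ⟨key, ?_, ?_⟩
  · intro ε hε
    obtain ⟨E, hE⟩ : ∃ E : Set ℕ, ∀ e, e ∈ E := ⟨Set.univ, Set.mem_univ⟩
    obtain ⟨δ, x₀, hδ, h⟩ := key E (1 / 2) (by norm_num) (by norm_num) (fun s =>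
      le_trans (sum_le_sum_of_subset_of_nonneg (filter_subset _ _) fun _ _ _ => by positivity)
        (half_sum s)) ε hε
    obtain ⟨x₂, hx₂⟩ := Filter.eventually_atTop.1 (large 0)
    refine ⟨max x₀ x₂, fun m hm x hx => ?_⟩
    have h1 := h m hm x ((le_max_left _ _).trans hx)
    rw [one_div_one_div] at h1
    refine le_trans ?_ h1
    refine Nat.cast_le.2 (card_le_card fun n hn => ?_)
    rw [mem_filter] at hn ⊢
    refine ⟨hn.1, hn.2, ?_⟩
    have h2 : (n.primeFactors.filter fun p => n.factorization p ∉ E) = ∅ := by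
      rw [filter_eq_empty_iff]
      intro p _ hp
      exact hp (hE _)
    rw [h2, card_empty, Nat.cast_zero]
    exact mul_nonneg hδ.le (hx₂ x ((le_max_right _ _).trans hx)).2
  · intro ε hε m hm
    obtain ⟨ρ, hρ⟩ : ∃ ρ, ρ = Real.exp (-(Real.log 2 / 2)) := ⟨_, rfl⟩
    have hl2 : 0 < Real.log 2 := Real.log_pos (by norm_num)
    have hρ0 : 0 < ρ := by rw [hρ]; exact Real.exp_pos _
    have hρ1 : ρ ≤ 1 := by
      rw [hρ, Real.exp_le_one_iff]
      linarith
    have hρ2 : ρ ^ 2 = 1 / 2 := by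
      rw [hρ, ← Real.exp_nat_mul]
      have : ((2 : ℕ) : ℝ) * -(Real.log 2 / 2) = -Real.log 2 := by push_cast; ring
      rw [this, Real.exp_neg, Real.exp_log (by norm_num)]
      norm_num
    have hlρ : Real.log (1 / ρ) = Real.log 2 / 2 := by
      rw [one_div, Real.log_inv, hρ, Real.log_exp, neg_neg]
    obtain ⟨E, hE⟩ : ∃ E : Set ℕ, ∀ e, e ∈ E ↔ Even e := ⟨{e : ℕ | Even e}, fun _ => Iff.rfl⟩
    obtain ⟨δ, x₀, hδ, h⟩ := key E ρ hρ0 hρ1 (fun s => by
      have hsub : (Icc 1 s).filter (fun e => e ∈ E) ⊆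
          (Icc 1 s).image fun j => 2 * j := by
        intro e he
        rw [mem_filter, mem_Icc, hE] at he
        obtain ⟨j, hj⟩ := he.2
        rw [mem_image]
        exact ⟨j, mem_Icc.2 ⟨by omega, by omega⟩, by omega⟩
      calc ∑ e ∈ (Icc 1 s).filter (fun e => e ∈ E), ρ ^ e ≤
            ∑ e ∈ (Icc 1 s).image fun j => 2 * j, ρ ^ e :=
            sum_le_sum_of_subset_of_nonneg hsub fun _ _ _ => by positivity
        _ = ∑ j ∈ Icc 1 s, ρ ^ (2 * j) := sum_image fun a _ b _ hab => by
            have : 2 * a = 2 * b := hab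
            omega
        _ = ∑ j ∈ Icc 1 s, (1 / 2 : ℝ) ^ j := by
            refine sum_congr rfl fun j _ => ?_
            rw [pow_mul, hρ2]
        _ ≤ 1 := half_sum s) ε hε
    obtain ⟨x₂, hx₂⟩ := Filter.eventually_atTop.1
      (large (((∑ d ∈ m.divisors, d : ℕ) : ℝ) / δ))
    refine ⟨max x₀ x₂, fun x hx => ?_⟩
    have h1 := h m hm x ((le_max_left _ _).trans hx)
    rw [hlρ] at h1
    refine le_trans ?_ h1
    refine Nat.cast_le.2 (card_le_card fun n hn => ?_)
    rw [mem_filter] at hn ⊢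
    refine ⟨hn.1, hn.2.2, ?_⟩
    have h2 := odd_exponents hE hn.2.1 hm hn.2.2
    have h3 := (hx₂ x ((le_max_right _ _).trans hx)).1
    rw [div_le_iff₀ hδ] at h3
    have h4 : (((n.primeFactors.filter fun p => n.factorization p ∉ E).card : ℕ) : ℝ) ≤
        ((∑ d ∈ m.divisors, d : ℕ) : ℝ) := by
      exact_mod_cast h2
    linarith

end Pool.Agent.Results.MP_c05f82_nt.CountingMembers
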