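import Pool.Agent.D0H37.CP.Gron

set_option autoImplicit false

/-!
# Members of a club with prescribed exponents

The club of `m` is the set of all `n ≥ 1` with `σ(n) / n = σ(m) / m`. Wirsing (1959): a club has at most
`x ^ (W / log log x)` members up to `x`. Here: a member of a club is determined by its exponents up to
few choices. For every function `f` there are at most `π(k + 1) ^ (⌊σ(m) / m⌋ - 1)` members of the club
of `m` with at most `k` prime factors such that all primes `p ∣ n` have the exponent `f p` (at most one
member if `m` is deficient, at most `π(k + 1)` perfect numbers), and this extends to members with at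
most `J` exceptional primes. Hence the number of the members up to `x` whose exponents are given by `f`,
for all but `J` primes, is bounded by a power of `log x`.

Idea of the proof. Write `n = A M` with `M` prime to `A`, where `A` is known and the exponents of `M` are
`f p`. Then `σ(M) / M` is known. If it is not an integer, then a prime factor `p` of its denominator
divides `M`, and `p ^ f p` can be moved from `M` to `A`, unless `p` is one of the exceptional primes,
which happens at most `J` times and costs a factor `k K`. If it is an integer `c ≥ 2`, then the smallest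
prime factor of `M` is at most `k + 1`, because `M` has at most `k` prime factors. This prime factor is
specified, and the next time that this happens the integer is smaller than `c`, so it happens at most
`⌊σ(m) / m⌋ - 1` times.
-/

namespace Pool.Agent.Results.MP_c05f82_nt.PrescribedExponents

open Finset
open scoped Classical

/-- Let `f : ℕ → ℕ` be any function.

(1) For all `m ≥ 1`, `k ≥ 1`, `J`, `K` there are at most
`(1 + k K) ^ J * π(k + 1) ^ (⌊σ(m) / m⌋ - 1)` members `n` of the club of `m` with at most `k` distinct
prime factors, of which at most `J` have an exponent different from `f p`, all these exponents being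
`≤ K`.

(2) Hence at most `(1 + K ^ 2) ^ J * π(K + 1) ^ (⌊σ(m) / m⌋ - 1)` members `n ≤ x` of the club of `m` have
an exponent different from `f p` at no more than `J` primes `p ∣ n`, where `K = ⌊log x / log 2⌋`.

(3) There is a constant `C` such that the number of the members in (2) is at most
`(C log x) ^ (2 J + C log log x)` for all `f`, `m`, `J` and `x ≥ 16`. -/
theorem result :
    (∀ (f : ℕ → ℕ) (m k J K : ℕ), 0 < m → 1 ≤ k →
      {n : ℕ | 0 < n ∧ (∑ d ∈ n.divisors, d) * m = (∑ d ∈ m.divisors, d) * n ∧
        n.primeFactors.card ≤ k ∧
        (n.primeFactors.filter fun p => n.factorization p ≠ f p).card ≤ J ∧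
        ∀ p ∈ n.primeFactors, n.factorization p ≠ f p → n.factorization p ≤ K}.Finite ∧
      {n : ℕ | 0 < n ∧ (∑ d ∈ n.divisors, d) * m = (∑ d ∈ m.divisors, d) * n ∧
        n.primeFactors.card ≤ k ∧
        (n.primeFactors.filter fun p => n.factorization p ≠ f p).card ≤ J ∧
        ∀ p ∈ n.primeFactors, n.factorization p ≠ f p → n.factorization p ≤ K}.ncard ≤
      (1 + k * K) ^ J * (Nat.primeCounting (k + 1)) ^ ((∑ d ∈ m.divisors, d) / m - 1)) ∧
    (∀ (f : ℕ → ℕ) (m J x : ℕ), 0 < m → 2 ≤ x →
      ((Icc 1 x).filter fun n => (∑ d ∈ n.divisors, d) * m = (∑ d ∈ m.divisors, d) * n ∧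
        (n.primeFactors.filter fun p => n.factorization p ≠ f p).card ≤ J).card ≤
      (1 + Nat.log 2 x ^ 2) ^ J *
        (Nat.primeCounting (Nat.log 2 x + 1)) ^ ((∑ d ∈ m.divisors, d) / m - 1)) ∧
    (∃ C : ℝ, ∀ (f : ℕ → ℕ) (m J x : ℕ), 0 < m → 16 ≤ x →
      ((((Icc 1 x).filter fun n => (∑ d ∈ n.divisors, d) * m = (∑ d ∈ m.divisors, d) * n ∧
        (n.primeFactors.filter fun p => n.factorization p ≠ f p).card ≤ J).card : ℕ) : ℝ) ≤
      (C * Real.log x) ^ (2 * (J : ℝ) + C * Real.log (Real.log x))) := by
  refine ⟨fun f m k J K hm hk => ?_, fun f m J x hm hx => ?_, ?_⟩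
  · apply Pool.Agent.D0H37.CP.ncard_le
    intro S hS
    apply Pool.Agent.D0H37.CP.card_fin hm (f := f) (J := J) (K := K) _ hk
    · intro N hN
      obtain ⟨_, _, _, _, h⟩ := hS hN
      exact h
    · intro N hN
      obtain ⟨_, _, h, _, _⟩ := hS hN
      exact h
    · intro N hN
      obtain ⟨_, _, _, h, _⟩ := hS hN
      exact h
    · intro N hN
      obtain ⟨h1, h2, _, _, _⟩ := hS hN
      exact ⟨h1.ne', by rw [mul_comm]; exact h2⟩
  · exact Pool.Agent.D0H37.CP.card_x f hm hx
  · exact Pool.Agent.D0H37.CP.card_unif

end Pool.Agent.Results.MP_c05f82_nt.PrescribedExponents
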