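import Pool.Agent.D0H92.SI.Pol2

set_option autoImplicit false

/-!
# Members of one abundancy club in short intervals, progressions and polynomial sequences

The club of `n` consists of the `m ≥ 1` with `σ(m) / m = σ(n) / n`. All constants depend on `ε` and on an upper bound `α₀` for the
abundancy index `σ(n) / n` only (and on the polynomial in (3)), not on the club.

(1) Criterion. Let `S` be a finite set of members (up to `X`) of one club. If every integer `B` in `[Y, 2 Y ^ 2)` divides at most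
`K` members of `S`, and every prime `q ≥ Y` divides at most `K'` members, then `|S| ≤ C Y ^ ε (K + K' log log log X)`.

(2) Every progression of `y` integers `≡ r (mod Q)` up to `X` contains at most `C (y gcd (r, Q)) ^ ε (1 + log log log X)` members of
the club; in particular every interval of length `y` contains at most `C y ^ ε (1 + log log log X)` members.

(3) A polynomial (squarefree over `ℚ`) takes at most `C y ^ ε (1 + log log log X)` times a value in the club in an interval of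
length `y`.

Proof. Let `A` be a unitary divisor of a member `N = A C`, and let the abundancy index of the cofactor `C` be `s = u / v`, which
depends on `A` only. If `s` is not an integer, a prime factor of `v` divides `C`, and it depends on `A` only. If `s` is an integer
`≥ 2`, the prime factors `q` of `C` satisfy `∑ 1 / q ≥ 1 / 3`, those above `24 log X` contribute at most `1 / 12`, and averaging over
the first prime costs a factor `Y ^ ε`, while the integer part of the abundancy of the cofactor, rounded up, decreases. So this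
happens at most `α₀ + 1` times. The recursion is stopped at the first divisor `B ≥ Y`, and a weight `A ^ (-ε)` bounds the branches.
-/

namespace Pool.Agent.Results.MP_c05f82_nt.ShortIntervals

open Finset Pool.Agent.D0H92.SI

open Classical in
/-- **Main theorem.** -/
theorem result (ε α₀ : ℝ) (hε : 0 < ε) :
    (∃ C : ℝ, 0 < C ∧ ∀ n : ℕ, 0 < n → ((∑ d ∈ n.divisors, d : ℕ) : ℝ) ≤ α₀ * n →
      ∀ (S : Finset ℕ) (X Y : ℕ) (K K' : ℝ),
      (∀ m ∈ S, 0 < m ∧ m ≤ X ∧ (∑ d ∈ m.divisors, d) * n = (∑ d ∈ n.divisors, d) * m) → 16 ≤ X → 1 ≤ Y → 1 ≤ K → 0 ≤ K' →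
      (∀ B : ℕ, Y ≤ B → B < 2 * Y ^ 2 → ((S.filter fun m => B ∣ m).card : ℝ) ≤ K) →
      (∀ q : ℕ, q.Prime → Y ≤ q → ((S.filter fun m => q ∣ m).card : ℝ) ≤ K') →
      (S.card : ℝ) ≤ C * (Y : ℝ) ^ ε * (K + K' * Real.log (Real.log (Real.log X)))) ∧
    (∃ C : ℝ, 0 < C ∧ ∀ n : ℕ, 0 < n → ((∑ d ∈ n.divisors, d : ℕ) : ℝ) ≤ α₀ * n →
      ∀ x y Q r : ℕ, 1 ≤ y → 1 ≤ Q → 16 ≤ x + Q * y →
      (((Finset.Ioc x (x + Q * y)).filter fun m => m ≡ r [MOD Q] ∧
          (∑ d ∈ m.divisors, d) * n = (∑ d ∈ n.divisors, d) * m).card : ℝ) ≤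
        C * ((y * Nat.gcd r Q : ℕ) : ℝ) ^ ε * (1 + Real.log (Real.log (Real.log ((x + Q * y : ℕ) : ℝ))))) ∧
    (∀ f : Polynomial ℤ, 1 ≤ f.natDegree → Squarefree (f.map (Int.castRingHom ℚ)) →
      ∃ C : ℝ, 0 < C ∧ ∀ n : ℕ, 0 < n → ((∑ d ∈ n.divisors, d : ℕ) : ℝ) ≤ α₀ * n →
      ∀ (x : ℤ) (y : ℕ), 1 ≤ y → 16 ≤ x.natAbs + y →
        (((Finset.Ioc x (x + y)).filter fun k => 0 < f.eval k ∧
            (∑ d ∈ (f.eval k).toNat.divisors, d) * n = (∑ d ∈ n.divisors, d) * (f.eval k).toNat).card : ℝ) ≤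
          C * (y : ℝ) ^ ε * (1 + Real.log (Real.log (Real.log ((x.natAbs + y : ℕ) : ℝ))))) := by
  have hsg : ∀ n : ℕ, 0 < n → 0 < ∑ d ∈ n.divisors, d := by
    intro n hn
    exact lt_of_lt_of_le hn (le_sg hn)
  refine ⟨?_, ?_, ?_⟩
  · obtain ⟨C, hC, h⟩ := club_crit ε α₀ hε
    refine ⟨C, hC, ?_⟩
    intro n hn hα S X Y K K' hS hX hY hK1 hK'0 hK hK'
    refine h (∑ d ∈ n.divisors, d) n S X Y K K' (hsg n hn) hn hα ?_ hX hY hK1 hK'0 hK hK'
    intro N hN
    obtain ⟨h1, h2, h3⟩ := hS N hN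
    refine ⟨⟨?_, h1⟩, h2⟩
    rw [mul_comm]
    exact h3
  · obtain ⟨C, hC, h⟩ := ap_club ε α₀ hε
    refine ⟨C, hC, ?_⟩
    intro n hn hα x y Q r hy hQ hX
    refine le_trans ?_ (h (∑ d ∈ n.divisors, d) n (hsg n hn) hn hα x y Q r hy hQ hX)
    rw [Nat.cast_le]
    apply card_le_card
    intro m hm
    obtain ⟨h1, h2, h3⟩ := mem_filter.1 hm
    have h4 := (mem_Ioc.1 h1).1
    refine mem_filter.2 ⟨h1, h2, ?_, by omega⟩
    rw [mul_comm]
    exact h3
  · intro f hf hsq
    obtain ⟨C, hC, h⟩ := poly_club f hf hsq ε α₀ hε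
    refine ⟨C, hC, ?_⟩
    intro n hn hα x y hy hX
    refine le_trans ?_ (h (∑ d ∈ n.divisors, d) n (hsg n hn) hn hα x y hy hX)
    rw [Nat.cast_le]
    apply card_le_card
    intro m hm
    obtain ⟨h1, h2, h3⟩ := mem_filter.1 hm
    refine mem_filter.2 ⟨h1, ?_, by omega⟩
    rw [mul_comm]
    exact h3

end Pool.Agent.Results.MP_c05f82_nt.ShortIntervals
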