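import Pool.Agent.D0H37.SP.Cyc
import Pool.Agent.D0H37.CP.Gron

set_option autoImplicit false

/-!
# Members of a club with two exponents, and odd perfect numbers without sixth powers

Let `l₁`, `l₂` be primes. We show that there are only polynomially many (in `k`) integers with at most
`k` distinct prime factors and a given abundancy, in which all exponents, except that of one special
prime `q`, are `l₁ - 1` or `l₂ - 1` (and all exponents are bounded). With `l₁ = 3`, `l₂ = 5`: there are at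
most `5 π(k + 1) (1 + 5 k) ^ 13` odd perfect numbers with at most `k` distinct prime factors which are not
divisible by the sixth power of a prime, hence at most `C (log x) ^ 14` up to `x`.

Idea of the proof. If `p` divides `σ(r ^ (l₁ - 1))`, then `p = l₁` or `p ≡ 1 mod l₁`; in the second case
the exponent of `p` in `n` is `l₂ - 1`, since otherwise `l₁` divides `σ(p ^ (l₁ - 1))`, which happens only
boundedly often. In the same way a prime factor of `σ(r ^ (l₂ - 1))` has the exponent `l₁ - 1`. A prime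
which divides no `σ(r ^ e)` with `r ≠ q` has the same exponent in `n` and in `σ(q ^ α)`, up to boundedly
many exceptions. So, in the decoding of Wirsing, the exponents need not be specified.
-/

namespace Pool.Agent.Results.MP_c05f82_nt.TwoExponents

open Finset
open scoped Classical

theorem two_fact {l : ℕ} (h : ¬ l ∣ 2) : (2 : ℕ).factorization l = 0 :=
  Nat.factorization_eq_zero_of_not_dvd h

theorem perf {N : ℕ} (hodd : Odd N) (hperf : N.Perfect) (h6 : ∀ p, p.Prime → ¬ p ^ 6 ∣ N) :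
    N ≠ 0 ∧ 1 * ∑ d ∈ N.divisors, d = 2 * N ∧ (∀ p, N.factorization p ≤ 5) ∧
    (N.primeFactors.filter fun p => p ∣ 2 * 1).card +
      (((2 : ℕ).factorization 3 + 5) + (((2 : ℕ).factorization 5 + 5) + 2)) ≤ 12 ∧
    ∃ q, q.Prime ∧ q ∣ N ∧
      ∀ p ∈ N.primeFactors, p ≠ q → N.factorization p = 3 - 1 ∨ N.factorization p = 5 - 1 := by
  have hN0 : N ≠ 0 := hperf.2.ne'
  have hs : ∑ d ∈ N.divisors, d = 2 * N := (Nat.perfect_iff_sum_divisors_eq_two_mul hperf.2).1 hperf
  have h5 : ∀ p, N.factorization p ≤ 5 := by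
    intro p
    by_cases hp : p.Prime
    · by_contra hcon
      exact h6 p hp ((hp.pow_dvd_iff_le_factorization hN0).2 (by omega))
    · rw [Nat.factorization_eq_zero_of_not_prime N hp]
      omega
  have hex : ∃ q, q.Prime ∧ q ∣ N ∧
      ∀ p ∈ N.primeFactors, p ≠ q → Even (N.factorization p) := by
    by_cases h : ∃ q ∈ N.primeFactors, Odd (N.factorization q)
    · obtain ⟨q, hq, hq2⟩ := h
      refine ⟨q, Nat.prime_of_mem_primeFactors hq, Nat.dvd_of_mem_primeFactors hq, ?_⟩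
      intro p hp hpq
      by_contra hcon
      exact Pool.Agent.Results.MP_f02ea4_nt.IthLargestPrime.euler hodd hperf hp hq hpq
        (Nat.not_even_iff_odd.1 hcon) hq2
    · push Not at h
      have hN1 : N ≠ 1 := by
        rintro rfl
        simp at hs
      obtain ⟨q, hq, hqN⟩ := Nat.exists_prime_and_dvd hN1
      exact ⟨q, hq, hqN, fun p hp _ => Nat.not_odd_iff_even.1 (h p hp)⟩
  refine ⟨hN0, by rw [one_mul]; exact hs, h5, ?_, ?_⟩
  · rw [two_fact (by norm_num), two_fact (by norm_num)]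
    have h7 : (N.primeFactors.filter fun p => p ∣ 2 * 1) = ∅ := by
      rw [filter_eq_empty_iff]
      intro p hp hp2
      rw [mul_one] at hp2
      have h8 := (Nat.prime_dvd_prime_iff_eq (Nat.prime_of_mem_primeFactors hp) Nat.prime_two).1 hp2
      have h9 := Nat.dvd_of_mem_primeFactors hp
      rw [h8] at h9
      have := Nat.odd_iff.1 hodd
      omega
    rw [h7, card_empty]
  · obtain ⟨q, hq, hqN, h⟩ := hex
    refine ⟨q, hq, hqN, fun p hp hpq => ?_⟩
    have h8 := h p hp hpq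
    have h9 := (Nat.prime_of_mem_primeFactors hp).factorization_pos_of_dvd hN0
      (Nat.dvd_of_mem_primeFactors hp)
    have h10 := h5 p
    rw [Nat.even_iff] at h8
    omega

theorem perf_card {S : Finset ℕ} {k : ℕ} (hk : 1 ≤ k) (h : ∀ N ∈ S, Odd N ∧ N.Perfect ∧
    N.primeFactors.card ≤ k ∧ ∀ p, p.Prime → ¬ p ^ 6 ∣ N) :
    S.card ≤ (1 + k * 5) ^ (12 + 1) * (5 * Nat.primeCounting (k + 1)) ^ 1 := by
  refine Pool.Agent.D0H37.SP.card_S (S := S) (a := 2) (b := 1) (l₁ := 3) (l₂ := 5) (k := k)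
    (K := 5) (J := 12) (by norm_num) Nat.prime_three Nat.prime_five hk (by norm_num) ?_
  intro N hN
  obtain ⟨h1, h2, h3, h4⟩ := h N hN
  obtain ⟨g1, g2, g3, g4, g5⟩ := perf h1 h2 h4
  exact ⟨g1, g2, h3, g3, g4, g5⟩

theorem pow_bd (J t K : ℕ) : ∃ C : ℝ, ∀ x : ℕ, 2 ≤ x →
    (((1 + Nat.log 2 x * K) ^ (J + 1) *
      (K * Nat.primeCounting (Nat.log 2 x + 1)) ^ t : ℕ) : ℝ) ≤ C * Real.log x ^ (J + 1 + t) := by
  refine ⟨(2 * (1 + K)) ^ (J + 1) * (4 * K) ^ t, fun x hx => ?_⟩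
  have hlog2 := Real.log_two_gt_d9
  have h1 := Pool.Agent.D0H37.CP.natlog_le (show 1 ≤ x by omega)
  have h2 : Real.log 2 ≤ Real.log x :=
    Real.log_le_log (by norm_num) (by exact_mod_cast hx)
  obtain ⟨L, hL⟩ : ∃ L, L = Real.log x := ⟨_, rfl⟩
  obtain ⟨n, hn⟩ : ∃ n, n = Nat.log 2 x := ⟨_, rfl⟩
  rw [← hL] at h1 h2 ⊢
  rw [← hn] at h1 ⊢
  have hn0 : (0 : ℝ) ≤ n := Nat.cast_nonneg _
  have hK0 : (0 : ℝ) ≤ K := Nat.cast_nonneg _
  have h3 : (n : ℝ) ≤ 2 * L := by nlinarith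
  have h4 : (1 : ℝ) ≤ 2 * L := by linarith
  have hL0 : 0 ≤ L := by linarith
  have h5 : (1 + (n : ℝ) * K) ≤ 2 * (1 + K) * L := by nlinarith
  have h6 : ((K : ℝ) * Nat.primeCounting (n + 1)) ≤ 4 * K * L := by
    have h7 : (Nat.primeCounting (n + 1) : ℝ) ≤ n + 1 := by
      exact_mod_cast Pool.Agent.D0H37.CP.pc_le n
    calc (K : ℝ) * Nat.primeCounting (n + 1) ≤ K * (4 * L) :=
          mul_le_mul_of_nonneg_left (by linarith) hK0
      _ = _ := by ring
  push_cast
  calc (1 + (n : ℝ) * K) ^ (J + 1) * (K * Nat.primeCounting (n + 1)) ^ t ≤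
        (2 * (1 + K) * L) ^ (J + 1) * (4 * K * L) ^ t :=
        mul_le_mul (pow_le_pow_left₀ (by positivity) h5 _) (pow_le_pow_left₀ (by positivity) h6 _)
          (by positivity) (by positivity)
    _ = _ := by
        rw [mul_pow, mul_pow, mul_pow, pow_add L]
        ring

/-- (1) For every `k ≥ 1` there are at most `5 π(k + 1) (1 + 5 k) ^ 13` odd perfect numbers with at most
`k` distinct prime factors which are divisible by no sixth power of a prime.

(2) There are at most `C (log x) ^ 14` odd perfect numbers up to `x` which are divisible by no sixth power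
of a prime.

(3) Let `l₁`, `l₂` be primes, `k ≥ 1`, `K ≥ 1`, and
`J = ω(a b) + v(l₁, a) + v(l₂, a) + 2 K + 2`. There are at most
`(1 + K k) ^ (J + 1) (K π(k + 1)) ^ (⌊a / b⌋ - 1)` integers `n` with `σ(n) / n = a / b`, with at most `k`
distinct prime factors and all exponents at most `K`, that have a prime factor `q` such that the exponents
of all the other prime factors are `l₁ - 1` or `l₂ - 1`.

(4) The number of the `n ≤ x` with the properties of (3) (without the bound for the number of the prime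
factors) is at most `C (log x) ^ (J + 1 + (⌊a / b⌋ - 1))`. -/
theorem result :
    (∀ k : ℕ, 1 ≤ k →
      {N : ℕ | Odd N ∧ N.Perfect ∧ N.primeFactors.card ≤ k ∧
        ∀ p, p.Prime → ¬ p ^ 6 ∣ N}.Finite ∧
      {N : ℕ | Odd N ∧ N.Perfect ∧ N.primeFactors.card ≤ k ∧
        ∀ p, p.Prime → ¬ p ^ 6 ∣ N}.ncard ≤ 5 * Nat.primeCounting (k + 1) * (1 + 5 * k) ^ 13) ∧
    (∃ C : ℝ, ∀ x : ℕ, 2 ≤ x →
      ((((Icc 1 x).filter fun N => Odd N ∧ N.Perfect ∧ ∀ p, p.Prime → ¬ p ^ 6 ∣ N).card : ℕ) : ℝ)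
        ≤ C * Real.log x ^ 14) ∧
    (∀ a b l₁ l₂ k K J : ℕ, 0 < b → l₁.Prime → l₂.Prime → 1 ≤ k → 1 ≤ K →
      J = (a * b).primeFactors.card + a.factorization l₁ + a.factorization l₂ + 2 * K + 2 →
      {n : ℕ | 0 < n ∧ b * ∑ d ∈ n.divisors, d = a * n ∧ n.primeFactors.card ≤ k ∧
        (∀ p, n.factorization p ≤ K) ∧ ∃ q, q.Prime ∧ q ∣ n ∧ ∀ p ∈ n.primeFactors, p ≠ q →
          n.factorization p = l₁ - 1 ∨ n.factorization p = l₂ - 1}.Finite ∧
      {n : ℕ | 0 < n ∧ b * ∑ d ∈ n.divisors, d = a * n ∧ n.primeFactors.card ≤ k ∧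
        (∀ p, n.factorization p ≤ K) ∧ ∃ q, q.Prime ∧ q ∣ n ∧ ∀ p ∈ n.primeFactors, p ≠ q →
          n.factorization p = l₁ - 1 ∨ n.factorization p = l₂ - 1}.ncard ≤
        (1 + k * K) ^ (J + 1) * (K * Nat.primeCounting (k + 1)) ^ (a / b - 1)) ∧
    (∀ a b l₁ l₂ K J : ℕ, 0 < b → l₁.Prime → l₂.Prime → 1 ≤ K →
      J = (a * b).primeFactors.card + a.factorization l₁ + a.factorization l₂ + 2 * K + 2 →
      ∃ C : ℝ, ∀ x : ℕ, 2 ≤ x →
        ((((Icc 1 x).filter fun n => b * ∑ d ∈ n.divisors, d = a * n ∧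
          (∀ p, n.factorization p ≤ K) ∧ ∃ q, q.Prime ∧ q ∣ n ∧ ∀ p ∈ n.primeFactors, p ≠ q →
            n.factorization p = l₁ - 1 ∨ n.factorization p = l₂ - 1).card : ℕ) : ℝ) ≤
        C * Real.log x ^ (J + 1 + (a / b - 1))) := by
  have hab : ∀ (a b n : ℕ), 0 < b → 0 < n → b * ∑ d ∈ n.divisors, d = a * n →
      (n.primeFactors.filter fun p => p ∣ a * b).card ≤ (a * b).primeFactors.card := by
    intro a b n hb hn h
    have ha : a ≠ 0 := by
      rintro rfl
      rw [zero_mul] at h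
      exact Nat.mul_ne_zero hb.ne' (Pool.Agent.D0H37.CB.sig_pos hn.ne').ne' h
    refine card_le_card fun p hp => ?_
    rw [mem_filter] at hp
    exact Nat.mem_primeFactors.2 ⟨Nat.prime_of_mem_primeFactors hp.1, hp.2,
      Nat.mul_ne_zero ha hb.ne'⟩
  refine ⟨fun k hk => ?_, ?_, ?_, ?_⟩
  · apply Pool.Agent.D0H37.CP.ncard_le
    intro S hS
    have h1 := perf_card hk (S := S) (fun N hN => hS hN)
    refine h1.trans (le_of_eq ?_)
    ring
  · obtain ⟨C, hC⟩ := pow_bd 12 1 5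
    refine ⟨C, fun x hx => le_trans ?_ (hC x hx)⟩
    have h1 := perf_card (k := Nat.log 2 x) (Nat.log_pos (by norm_num) hx)
      (S := (Icc 1 x).filter fun N => Odd N ∧ N.Perfect ∧ ∀ p, p.Prime → ¬ p ^ 6 ∣ N)
      (fun N hN => by
        rw [mem_filter, mem_Icc] at hN
        exact ⟨hN.2.1, hN.2.2.1, Pool.Agent.D0H37.CP.card_log (by omega) hN.1.2, hN.2.2.2⟩)
    exact_mod_cast h1
  · intro a b l₁ l₂ k K J hb hl₁ hl₂ hk hK hJ
    apply Pool.Agent.D0H37.CP.ncard_le
    intro S hS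
    refine Pool.Agent.D0H37.SP.card_S hb hl₁ hl₂ hk hK fun N hN => ?_
    obtain ⟨h1, h2, h3, h4, h5⟩ := hS hN
    refine ⟨h1.ne', h2, h3, h4, ?_, h5⟩
    have := hab a b N hb h1 h2
    omega
  · intro a b l₁ l₂ K J hb hl₁ hl₂ hK hJ
    obtain ⟨C, hC⟩ := pow_bd J (a / b - 1) K
    refine ⟨C, fun x hx => le_trans ?_ (hC x hx)⟩
    refine Nat.cast_le.2 (Pool.Agent.D0H37.SP.card_S hb hl₁ hl₂ (Nat.log_pos (by norm_num) hx) hK
      fun N hN => ?_)
    rw [mem_filter, mem_Icc] at hN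
    obtain ⟨⟨h1, h2⟩, h3, h4, h5⟩ := hN
    refine ⟨by omega, h3, Pool.Agent.D0H37.CP.card_log (by omega) h2, h4, ?_, h5⟩
    have := hab a b N hb h1 h3
    omega

end Pool.Agent.Results.MP_c05f82_nt.TwoExponents
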